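import Mathlib
import Pool.Agent.helper35.Hz.Sdefs

/-! # `CT_S` and `CT_gen` (module K of MP_1b0330_gt) -/

namespace Pool.Agent.helper59.Hz

open Pool.Agent.helper35.Hz

/-- the curves (with their twists) in `FG m`, `m = 2k-1` -/
def CT (k m : ℕ) : Set (FG m × MulAut (FG m)) :=
  {p | ∃ i < m, p = (ga m i, tauA m i)} ∪
  {p | ∃ i, (i = k - 2 ∨ i = k - 1 ∨ i = 2 * k - 2) ∧ p = (gb m i, tauB m i)} ∪
  {p | ∃ i, i + 1 < k ∧ p = (nu m i (k + i), tauN m i (k + i))} ∪
  {p | ∃ i, i + 1 < k ∧ p = (mu m (k - 1) (k + i), tauM m (k - 1) (k + i))} ∪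
  {p | ∃ j, j + 1 < m ∧ p = (mu m j (j + 1), tauM m j (j + 1))}

/-- a twist sends a generator `b_j` to `c^e b_j c^e'` -/
theorem tw_form {m : ℕ} {c : FG m} {α β : ℕ → Bool → Bool} {h1 h2} {j : ℕ} (hj : j < m) :
    ∃ e e' : ℤ, tw c α β h1 h2 (gb m j) = c ^ e * gb m j * c ^ e' := by
  refine ⟨if α j false then 1 else 0, if β j false then -1 else 0, ?_⟩
  rw [tw_gb hj]
  split_ifs <;> simp

theorem CT_S {k m : ℕ} (hk : 2 ≤ k) (hm : m = 2 * k - 1) {j : ℕ} (hj : j + 2 < k) :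
    ∀ p ∈ CT k m, ∃ e e' : ℤ, p.2 (gb m j) = p.1 ^ e * gb m j * p.1 ^ e' := by
  have hjm : j < m := by omega
  rintro p ((((⟨i, hi, rfl⟩ | ⟨i, hi, rfl⟩) | ⟨i, hi, rfl⟩) | ⟨i, hi, rfl⟩) | ⟨i, hi, rfl⟩)
  · exact tw_form (h1 := tauA_aux m i _) (h2 := tauA_aux m i _) hjm
  · obtain ⟨e, e', h⟩ := tw_form (h1 := tauB_aux m i _) (h2 := tauB_aux m i _) (j := j) hjm
    refine ⟨-e, -e', ?_⟩
    have : (tauB m i) (gb m j) = (gb m i)⁻¹ ^ e * gb m j * (gb m i)⁻¹ ^ e' := h
    simpa using this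
  · have h : i < k + i ∧ k + i < m := by omega
    simp only [tauN, dif_pos h]
    exact tw_form hjm
  · have h : k - 1 < k + i ∧ k + i < m := by omega
    simp only [tauM, dif_pos h]
    exact tw_form hjm
  · have h : i < i + 1 ∧ i + 1 < m := by omega
    simp only [tauM, dif_pos h]
    exact tw_form hjm

theorem CT_gen {k m : ℕ} (hk : 2 ≤ k) (hm : m = 2 * k - 1) :
    Subgroup.closure ({c | ∃ p ∈ CT k m, c = p.1} ∪ {s | ∃ j, j + 2 < k ∧ s = gb m j}) = ⊤ := by
  set H := Subgroup.closure ({c | ∃ p ∈ CT k m, c = p.1} ∪ {s | ∃ j, j + 2 < k ∧ s = gb m j}) with hH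
  have hC : ∀ p ∈ CT k m, p.1 ∈ H := fun p hp => Subgroup.subset_closure (Or.inl ⟨p, hp, rfl⟩)
  have ha : ∀ i < m, ga m i ∈ H := fun i hi =>
    hC (ga m i, tauA m i) (Or.inl (Or.inl (Or.inl (Or.inl ⟨i, hi, rfl⟩))))
  have hb0 : ∀ i, (i = k - 2 ∨ i = k - 1 ∨ i = 2 * k - 2) → gb m i ∈ H := fun i hi =>
    hC (gb m i, tauB m i) (Or.inl (Or.inl (Or.inl (Or.inr ⟨i, hi, rfl⟩))))
  have hn : ∀ i, i + 1 < k → nu m i (k + i) ∈ H := fun i hi =>
    hC (nu m i (k + i), tauN m i (k + i)) (Or.inl (Or.inl (Or.inr ⟨i, hi, rfl⟩)))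
  have hb1 : ∀ i < k, gb m i ∈ H := by
    intro i hi
    by_cases h : i + 2 < k
    · exact Subgroup.subset_closure (Or.inr ⟨i, h, rfl⟩)
    · exact hb0 i (by omega)
  -- `zr` of handles whose `b` are known
  have hz : ∀ i j, i ≤ j → j ≤ m → (∀ l, i ≤ l → l < j → gb m l ∈ H) → zr m i j ∈ H := by
    intro i j hij hjm h
    unfold zr
    refine Subgroup.list_prod_mem _ fun x hx => ?_
    rw [List.mem_map] at hx
    obtain ⟨l, hl, rfl⟩ := hx
    rw [List.mem_range'_1] at hl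
    have h1 := ha l (by omega)
    have h2 := h l hl.1 (by omega)
    exact H.mul_mem (H.mul_mem (H.mul_mem h1 h2) (H.inv_mem h1)) (H.inv_mem h2)
  have hb2 : ∀ i, i + 1 < k → ∀ l, l ≤ k + i → gb m l ∈ H := by
    intro i
    induction i using Nat.strong_induction_on with
    | _ i ih =>
      intro hi l hl
      by_cases hlk : l < k
      · exact hb1 l hlk
      by_cases hli : l < k + i
      · exact ih (l - k) (by omega) (by omega) l (by omega)
      have hl' : l = k + i := by omega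
      subst hl'
      have h1 := hn i hi
      have h2 : zr m (i + 1) (k + i) ∈ H := by
        refine hz _ _ (by omega) (by omega) fun l h1 h2 => ?_
        by_cases hlk : l < k
        · exact hb1 l hlk
        · exact ih (l - k) (by omega) (by omega) l (by omega)
      have h3 := hb1 i (by omega)
      have h4 := ha (k + i) (by omega)
      have h5 : gb m (k + i) = (ga m (k + i))⁻¹ * ((zr m (i + 1) (k + i))⁻¹ * (gb m i * nu m i (k + i))) *
          ga m (k + i) := by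
        unfold nu; group
      rw [h5]
      exact H.mul_mem (H.mul_mem (H.inv_mem h4) (H.mul_mem (H.inv_mem h2) (H.mul_mem h3 h1))) h4
  have hb : ∀ i < m, gb m i ∈ H := by
    intro i hi
    by_cases h1 : i < k
    · exact hb1 i h1
    by_cases h2 : i = 2 * k - 2
    · exact hb0 i (Or.inr (Or.inr h2))
    · exact hb2 (i - k) (by omega) i (by omega)
  rw [eq_top_iff]
  intro x _
  induction x using FreeGroup.induction_on with
  | C1 => exact H.one_mem
  | of x =>
    obtain ⟨⟨i, hi⟩, s⟩ := x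
    cases s
    · have := hb i hi; rwa [gb_of_lt hi] at this
    · have := ha i hi; rwa [ga_of_lt hi] at this
  | inv_of x h => exact H.inv_mem (h trivial)
  | mul x y hx hy => exact H.mul_mem (hx trivial) (hy trivial)

end Pool.Agent.helper59.Hz
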